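import Mathlib
import Pool.Agent.H85.ZmDefs
import Pool.Agent.H85.ZmHeis

open scoped Manifold ContDiff commutatorElement
open TopologicalSpace Pool.Agent.H85

namespace Pool.Agent.Results.MP_3a9d0e_gt.HeisCounterexample

/-- **Negative answer to Q1.**  There is a (connected, two-step nilpotent, three-dimensional,
real-analytic, Hausdorff, second countable) Lie group `K` with a subgroup `G` (which is even
normal) such that `G` has the property `Z_m` but is not closed in `K`. -/
theorem result :
    ∃ (K : Type) (_ : Group K) (_ : TopologicalSpace K) (_ : ChartedSpace (ℝ × ℝ × ℝ) K)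
      (_ : LieGroup 𝓘(ℝ, ℝ × ℝ × ℝ) ω K) (_ : T2Space K) (_ : SecondCountableTopology K)
      (_ : ConnectedSpace K)
      (_ : ∀ a b c : K, ⁅⁅a, b⁆, c⁆ = 1) (G : Subgroup K),
      G.Normal ∧ PropertyZm G ∧ ¬ IsClosed (G : Set K) :=
  Pool.Agent.H85.ZmHeis.main

end Pool.Agent.Results.MP_3a9d0e_gt.HeisCounterexample
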